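import Mathlib
import Pool.Agent.H410R2.ACIface

set_option autoImplicit false

open Finset

namespace Pool.Agent.H708R2

/-- a subset with mass in [c, c+1] -/
theorem exists_sub {α : Type*} [DecidableEq α] (ω : α → ℝ) (c : ℝ) (hc : 0 ≤ c) (Ω : Finset α) :
    (∀ R ∈ Ω, 0 ≤ ω R ∧ ω R ≤ 1) → c ≤ ∑ R ∈ Ω, ω R →
    ∃ A ⊆ Ω, c ≤ ∑ R ∈ A, ω R ∧ ∑ R ∈ A, ω R ≤ c + 1 := by
  induction Ω using Finset.induction_on with
  | empty =>
    intro _ h
    refine ⟨∅, subset_rfl, h, ?_⟩
    simp
    linarith
  | insert a Ω ha ih =>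
    intro h1 h2
    by_cases h : c ≤ ∑ R ∈ Ω, ω R
    · obtain ⟨A, hA, hA'⟩ := ih (fun R hR => h1 R (mem_insert_of_mem hR)) h
      exact ⟨A, hA.trans (subset_insert _ _), hA'⟩
    · push Not at h
      refine ⟨insert a Ω, subset_rfl, h2, ?_⟩
      rw [sum_insert ha]
      have := (h1 a (mem_insert_self _ _)).2
      linarith

/-- greedy splitting -/
theorem greedy {α : Type*} [DecidableEq α] (ω : α → ℝ) (c : ℝ) (hc : 0 ≤ c) (n : ℕ) :
    ∀ Ω : Finset α, (∀ R ∈ Ω, 0 ≤ ω R ∧ ω R ≤ 1) → n * (c + 1) ≤ ∑ R ∈ Ω, ω R →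
    ∃ S : Fin n → Finset α, (∀ i, S i ⊆ Ω) ∧ (∀ i j, i ≠ j → Disjoint (S i) (S j)) ∧
      ∀ i, c ≤ ∑ R ∈ S i, ω R := by
  induction n with
  | zero => intro Ω _ _; exact ⟨fun _ => ∅, fun i => i.elim0, fun i => i.elim0, fun i => i.elim0⟩
  | succ n ih =>
    intro Ω h1 h2
    push_cast at h2
    have hn : (0 : ℝ) ≤ n := Nat.cast_nonneg n
    have hnc : 0 ≤ (n : ℝ) * (c + 1) := by positivity
    obtain ⟨A, hA, hA1, hA2⟩ := exists_sub ω c hc Ω h1 (by nlinarith)
    obtain ⟨S, hS1, hS2, hS3⟩ := ih (Ω \ A) (fun R hR => h1 R (mem_sdiff.1 hR).1) (by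
      have := sum_sdiff hA (f := ω)
      nlinarith)
    refine ⟨Fin.cons A S, ?_, ?_, ?_⟩
    · intro i
      refine Fin.cases ?_ (fun j => ?_) i
      · simpa using hA
      · simpa using (hS1 j).trans sdiff_subset
    · have key : ∀ j, Disjoint A (S j) := by
        intro j
        rw [Finset.disjoint_left]
        intro x hx hx'
        exact (mem_sdiff.1 (hS1 j hx')).2 hx
      intro i j
      refine Fin.cases ?_ (fun i => ?_) i
      · refine Fin.cases (fun h => absurd rfl h) (fun j _ => ?_) j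
        simpa using key j
      · refine Fin.cases (fun _ => ?_) (fun j h => ?_) j
        · simpa using (key i).symm
        · simpa using hS2 i j (fun e => h (by rw [e]))
    · intro i
      refine Fin.cases ?_ (fun j => ?_) i
      · simpa using hA1
      · simpa using hS3 j

theorem types : Pool.Agent.H410R2.AC.Types := by
  intro C η T hC hη hT
  have hC0 : 0 < C := by linarith
  -- number of scales
  obtain ⟨s, hs⟩ := exists_nat_ge (max 1 (8 * C / (η * T)))
  have hs1 : (1 : ℝ) ≤ s := (le_max_left _ _).trans hs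
  have hs8 : 8 * C / (η * T) ≤ s := (le_max_right _ _).trans hs
  have hs0 : (0 : ℝ) < s := by linarith
  have hsN : 0 < s := by exact_mod_cast hs0
  set ρ : ℝ := 2 * C ^ 2 with hρ
  have hρ2 : 2 ≤ ρ := by rw [hρ]; nlinarith
  have hρ0 : 0 < ρ := by linarith
  set t : ℕ → ℝ := fun i => T / 4 / ρ ^ i with ht
  have ht0 : ∀ i, 0 < t i := fun i => by simp only [ht]; positivity
  have htsucc : ∀ i, t (i + 1) = t i / ρ := fun i => by
    simp only [ht, pow_succ]
    field_simp
  have htle : ∀ i, t i ≤ T / 4 / 2 ^ i := fun i => by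
    simp only [ht]
    have : (2 : ℝ) ^ i ≤ ρ ^ i := pow_le_pow_left₀ (by norm_num) hρ2 i
    exact div_le_div_of_nonneg_left (by positivity) (by positivity) this
  have htT : ∀ i, t i ≤ T := fun i => by
    have h1 : T / 4 / 2 ^ i ≤ T / 4 := div_le_self (by positivity) (one_le_pow₀ (by norm_num))
    linarith [htle i]
  have hanti : ∀ i j, i ≤ j → t j ≤ t i := by
    intro i j hij
    simp only [ht]
    exact div_le_div_of_nonneg_left (by positivity) (by positivity)
      (pow_le_pow_right₀ (by linarith) hij)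
  set N : ℕ → ℕ := fun i => ⌈4 * C / (s ^ 2 * η * t i)⌉₊ with hN
  have hNpos : ∀ i, 0 < N i := fun i => by
    simp only [hN]
    have := ht0 i
    exact Nat.ceil_pos.2 (by positivity)
  have hN0 : ∀ i, (0 : ℝ) < N i := fun i => by exact_mod_cast hNpos i
  have hNge : ∀ i, 4 * C / (s ^ 2 * η * t i) ≤ N i := fun i => Nat.le_ceil _
  have hNle : ∀ i, (N i : ℝ) ≤ 4 * C / (s ^ 2 * η * t i) + 1 := fun i => by
    have := ht0 i
    exact (Nat.ceil_lt_add_one (by positivity)).le
  -- index type
  let ι := (i : Fin s) × Fin (N i)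
  let e : Fin (Fintype.card ι) ≃ ι := (Fintype.equivFin ι).symm
  -- threshold
  have : Nonempty (Fin s) := ⟨⟨0, hsN⟩⟩
  obtain ⟨V₀, hV₀, hV₀1, hV₀2⟩ : ∃ V₀ : ℝ, 0 < V₀ ∧ (∀ i : Fin s, V₀ ≤ t i / (4 * C * N i)) ∧
      ∀ i : Fin s, V₀ ≤ t (i + 1) := by
    refine ⟨Finset.univ.inf' Finset.univ_nonempty
      (fun i : Fin s => min (t i / (4 * C * N i)) (t (i + 1))), ?_, ?_, ?_⟩
    · rw [Finset.lt_inf'_iff]
      intro i _
      have h1 := ht0 i
      have h2 := hN0 i
      have h3 := ht0 (i + 1)
      exact lt_min (by positivity) h3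
    · intro i
      exact (Finset.inf'_le _ (mem_univ i)).trans (min_le_left _ _)
    · intro i
      exact (Finset.inf'_le _ (mem_univ i)).trans (min_le_right _ _)
  refine ⟨Fintype.card ι, fun k => t (e k).1, fun k => 1 / (s * N (e k).1), V₀, hV₀, ?_, ?_, ?_, ?_⟩
  · intro k
    refine ⟨ht0 _, ?_⟩
    have := hN0 (e k).1
    positivity
  · rw [Equiv.sum_comp e (fun x : ι => 1 / ((s : ℝ) * N x.1)), Fintype.sum_sigma]
    have : ∀ i : Fin s, ∑ _y : Fin (N i), 1 / ((s : ℝ) * N i) = 1 / s := by
      intro i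
      have := hN0 i
      rw [Finset.sum_const, Finset.card_univ, Fintype.card_fin, nsmul_eq_mul]
      field_simp
    rw [Finset.sum_congr rfl (fun i _ => this i)]
    rw [Finset.sum_const, Finset.card_univ, Fintype.card_fin, nsmul_eq_mul]
    field_simp
  · rw [Equiv.sum_comp e (fun x : ι => t x.1), Fintype.sum_sigma]
    have h1 : ∀ i : Fin s, ∑ _y : Fin (N i), t i ≤ 4 * C / (s ^ 2 * η) + t i := by
      intro i
      have h0 := ht0 i
      rw [Finset.sum_const, Finset.card_univ, Fintype.card_fin, nsmul_eq_mul]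
      calc (N i : ℝ) * t i ≤ (4 * C / (s ^ 2 * η * t i) + 1) * t i :=
            mul_le_mul_of_nonneg_right (hNle i) h0.le
        _ = _ := by field_simp
    refine (Finset.sum_le_sum (fun i _ => h1 i)).trans ?_
    rw [Finset.sum_add_distrib, Finset.sum_const, Finset.card_univ, Fintype.card_fin, nsmul_eq_mul]
    have h2 : (s : ℝ) * (4 * C / (s ^ 2 * η)) ≤ T / 2 := by
      have : (s : ℝ) * (4 * C / (s ^ 2 * η)) = 4 * C / (s * η) := by field_simp
      rw [this, div_le_div_iff₀ (by positivity) (by norm_num)]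
      rw [div_le_iff₀ (by positivity)] at hs8
      nlinarith
    have h3 : ∑ i : Fin s, t i ≤ T / 2 := by
      rw [Fin.sum_univ_eq_sum_range (fun i => t i) s]
      calc ∑ i ∈ range s, t i ≤ ∑ i ∈ range s, T / 4 / 2 ^ i := Finset.sum_le_sum (fun i _ => htle i)
        _ = T / 4 * ∑ i ∈ range s, (1 / 2 : ℝ) ^ i := by
            rw [Finset.mul_sum]
            refine Finset.sum_congr rfl (fun i _ => ?_)
            rw [div_eq_mul_inv, one_div, inv_pow]
        _ ≤ T / 4 * 2 := by
            apply mul_le_mul_of_nonneg_left _ (by positivity)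
            have := geom_sum_eq (show (1 / 2 : ℝ) ≠ 1 by norm_num) s
            rw [this]
            have h0 : (0 : ℝ) < (1 / 2) ^ s := by positivity
            have h1 : ((1 / 2 : ℝ) ^ s - 1) / (1 / 2 - 1) = 2 * (1 - (1 / 2) ^ s) := by
              field_simp
              ring
            rw [h1]
            linarith
        _ = T / 2 := by ring
    linarith
  · intro V Ω ω sz hV hVV₀ hω hmass
    -- scale pieces
    let Ωi : ℕ → Finset (Finset ℕ) := fun i => Ω.filter (fun R => t (i + 1) < sz R ∧ sz R ≤ t i)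
    have hΩi : ∀ i : Fin s, t i / (2 * C * V) ≤ ∑ R ∈ Ωi i, ω R := by
      intro i
      have hVi : V ≤ t (i + 1) := hVV₀.trans (hV₀2 i)
      have hVi' : V ≤ t i := hVi.trans (hanti _ _ (Nat.le_succ _))
      have h1 := (hmass (t i) hVi' (htT i)).1
      have h2 := (hmass (t (i + 1)) hVi (htT (i + 1))).2
      have h3 : ∑ R ∈ Ω.filter (fun R => sz R ≤ t i), ω R =
          ∑ R ∈ Ω.filter (fun R => sz R ≤ t (i + 1)), ω R + ∑ R ∈ Ωi i, ω R := by
        rw [← Finset.sum_filter_add_sum_filter_not (Ω.filter (fun R => sz R ≤ t i))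
          (fun R => sz R ≤ t (i + 1))]
        rw [Finset.filter_filter, Finset.filter_filter]
        congr 1
        · refine Finset.sum_congr ?_ (fun _ _ => rfl)
          ext R
          simp only [Finset.mem_filter]
          have := hanti i (i + 1) (Nat.le_succ _)
          constructor
          · rintro ⟨a, b, c⟩; exact ⟨a, c⟩
          · rintro ⟨a, c⟩; exact ⟨a, c.trans this, c⟩
        · refine Finset.sum_congr ?_ (fun _ _ => rfl)
          ext R
          simp only [Ωi, Finset.mem_filter, not_le]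
          tauto
      have h4 : C * t (i + 1) / V = t i / (2 * C * V) := by
        rw [htsucc, hρ]
        field_simp
      have h5 : t i / (C * V) = 2 * (t i / (2 * C * V)) := by
        field_simp
      rw [h3, h5] at h1
      rw [h4] at h2
      linarith
    -- greedy on each scale
    have hgr : ∀ i : Fin s, ∃ S : Fin (N i) → Finset (Finset ℕ), (∀ j, S j ⊆ Ωi i) ∧
        (∀ j j', j ≠ j' → Disjoint (S j) (S j')) ∧
        ∀ j, t i / (4 * C * V * N i) ≤ ∑ R ∈ S j, ω R := by
      intro i
      have h0 := ht0 i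
      have hn := hN0 i
      refine greedy ω (t i / (4 * C * V * N i)) (by positivity) (N i) (Ωi i)
        (fun R hR => hω R (Finset.mem_filter.1 hR).1) ?_
      refine le_trans ?_ (hΩi i)
      have h1 : 1 ≤ t i / (4 * C * V * N i) := by
        have := hVV₀.trans (hV₀1 i)
        rw [le_div_iff₀ (by positivity)] at this
        rw [le_div_iff₀ (by positivity)]
        linarith
      calc (N i : ℝ) * (t i / (4 * C * V * N i) + 1)
          ≤ N i * (t i / (4 * C * V * N i) + t i / (4 * C * V * N i)) :=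
            mul_le_mul_of_nonneg_left (by linarith) hn.le
        _ = t i / (2 * C * V) := by field_simp; ring
    choose S hS1 hS2 hS3 using hgr
    refine ⟨fun k => S (e k).1 (e k).2, ?_, ?_, ?_⟩
    · intro k R hR
      have h := Finset.mem_filter.1 (hS1 _ _ hR)
      refine Finset.mem_filter.2 ⟨h.1, ?_, h.2.2⟩
      exact lt_of_le_of_lt (hVV₀.trans (hV₀2 _)) h.2.1
    · have aux : ∀ x x' : ι, x ≠ x' → Disjoint (S x.1 x.2) (S x'.1 x'.2) := ?_
      · intro k k' hkk
        exact aux _ _ (fun h => hkk (e.injective h))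
      rintro ⟨i, j⟩ ⟨i', j'⟩ hne
      simp only
      by_cases hii : i = i'
      · subst hii
        apply hS2
        intro hjj
        apply hne
        rw [hjj]
      · rw [Finset.disjoint_left]
        intro R hR hR'
        have h := (Finset.mem_filter.1 (hS1 _ _ hR)).2
        have h' := (Finset.mem_filter.1 (hS1 _ _ hR')).2
        have hlt : (i : ℕ) < i' ∨ (i' : ℕ) < i := by
          rcases lt_trichotomy (i : ℕ) i' with h | h | h
          · exact Or.inl h
          · exact absurd (Fin.ext h) hii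
          · exact Or.inr h
        rcases hlt with hlt | hlt
        · have := hanti (i + 1) i' hlt
          linarith [h.1, h'.2]
        · have := hanti (i' + 1) i hlt
          linarith [h'.1, h.2]
    · intro k
      refine le_trans ?_ (hS3 (e k).1 (e k).2)
      have h0 := ht0 (e k).1
      have hn := hN0 (e k).1
      have hge := hNge (e k).1
      rw [div_le_iff₀ (by positivity)] at hge
      rw [div_pow, one_pow, div_div, div_le_div_iff₀ (by positivity) (by positivity), one_mul]
      have : 4 * C * V * (N (e k).1 : ℝ) ≤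
          (N (e k).1 * (s ^ 2 * η * t (e k).1)) * (V * N (e k).1) := by
        calc 4 * C * V * (N (e k).1 : ℝ) = (4 * C) * (V * N (e k).1) := by ring
          _ ≤ _ := mul_le_mul_of_nonneg_right hge (by positivity)
      calc 4 * C * V * (N (e k).1 : ℝ) ≤ _ := this
        _ = _ := by ring

end Pool.Agent.H708R2
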